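import Pool.Agent.X229.EmMode0
import Pool.Agent.X229.EmMode1

/-!
# MP_767d8d_lc : mode 0 and mode 1 two-component even matrix grammars differ

There is a language over a two-letter alphabet that is generated by a two-component even matrix
grammar in mode 1 but by no two-component even matrix grammar in mode 0.
-/

namespace Pool.Agent.Results.MP_767d8d_lc.ModesDiffer

open Pool.Agent.X229.Em

/-- **MP_767d8d_lc, Q1: disproved.**  Some language `L` over the two-letter alphabet `Bool` is
generated by a two-component even matrix grammar in mode 1, and no two-component even matrix grammar
over a finite terminal alphabet `T` containing the two letters (`ι : Bool → T` injective) generates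
`L` in mode 0.  In particular (`ι = id`) the two families over `Bool` differ. -/
theorem result : ∃ L : Set (List Bool), L ∈ Family Bool true ∧ L ∉ Family Bool false ∧
    ∀ (T : Type) [Finite T] (ι : Bool → T), Function.Injective ι →
      (List.map ι '' L) ∉ Family T false := by
  have main : ∀ (T : Type) [Finite T] (ι : Bool → T), Function.Injective ι →
      (List.map ι '' (Lang Pool.Agent.X229.EmMode1.Gr true)) ∉ Family T false := by
    intro T _ ι hι
    rw [family_eq, lang_eq]
    have hne : ι true ≠ ι false := fun h => by simpa using hι h
    apply Pool.Agent.X229.EmMode0.no_mode0 (ι true) (ι false) hne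
    · intro m
      refine ⟨_, Pool.Agent.X229.EmMode1.word_mem m, ?_⟩
      simp [Pool.Agent.X229.EmMode0.word]
    · rintro i j ⟨w, hw, he⟩
      have h1 : List.replicate i (ι true) ++ List.replicate j (ι false)
          = List.map ι (List.replicate i true ++ List.replicate j false) := by simp
      rw [h1] at he
      have h2 := List.map_injective_iff.mpr hι he
      rw [h2] at hw
      exact Pool.Agent.X229.EmMode1.word_only i j hw
  refine ⟨Lang Pool.Agent.X229.EmMode1.Gr true,
    ⟨_, _, inferInstance, inferInstance, Pool.Agent.X229.EmMode1.Gr, rfl⟩, ?_, main⟩
  have := main Bool id (fun _ _ h => h)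
  simpa using this

end Pool.Agent.Results.MP_767d8d_lc.ModesDiffer
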